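import Pool.Agent.Lib_helper29.RBP.Defs
import Pool.Agent.Lib_helper15.RB.C
import Pool.Agent.Lib_helper29.SY.Main

/-!
# Rubin's conjecture for most `T`, in the plain form
-/

set_option autoImplicit false
set_option linter.unusedSectionVars false

namespace Pool.Agent.RB

open NumberField IsDedekindDomain
open Pool.Agent.RSK (Kf kf_quo kf_galois)
open Pool.Agent.SY (indK indG indK_eq fs_rsg fs_char)

section

variable {F₀ F H L : Type} [Field F₀] [NumberField F₀] [Field F] [NumberField F] [Field H]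
  [NumberField H] [Field L] [NumberField L] [Algebra F₀ F] [Algebra F₀ H] [Algebra F₀ L]
  [Algebra F H] [Algebra F L] [Algebra H L] [IsScalarTower F₀ F H] [IsScalarTower F₀ F L]
  [IsScalarTower F H L] [IsGalois F H] [IsGalois F₀ L] {G : Type} [CommGroup G] [Fintype G]

theorem ind_eq (ι : G ≃* (H ≃ₐ[F] H)) (χ : G →* ℂˣ) (γ : L ≃ₐ[F₀] L) :
    ind ι χ γ = indK (χ.comp ι.symm.toMonoidHom) γ := by
  classical
  have : Fintype (L ≃ₐ[F₀] L) := Fintype.ofFinite _
  have : Fintype (H ≃ₐ[F] H) := Fintype.ofFinite _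
  rw [ind, indK]
  congr 1
  rw [finsum_eq_sum_of_fintype]
  rw [← Finset.sum_subtype (Finset.univ.filter fun q : (L ≃ₐ[F₀] L) × (H ≃ₐ[F] H) =>
    ∀ x : H, γ (q.1 (algebraMap H L x)) = q.1 (algebraMap H L (q.2 x))) (fun q => by simp)
    (fun q => (((χ.comp ι.symm.toMonoidHom) q.2 : ℂˣ) : ℂ))]
  rw [Finset.sum_filter, Fintype.sum_prod_type_right]
  rw [← Equiv.sum_comp ι.toEquiv]
  refine Finset.sum_congr rfl fun g _ => ?_
  have h1 : ∀ δ : L ≃ₐ[F₀] L, ((((χ.comp ι.symm.toMonoidHom) ((δ, ι.toEquiv g) :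
      (L ≃ₐ[F₀] L) × (H ≃ₐ[F] H)).2 : ℂˣ) : ℂ)) = ((χ g : ℂˣ) : ℂ) := by
    intro δ
    show (((χ (ι.symm (ι g))) : ℂˣ) : ℂ) = _
    rw [MulEquiv.symm_apply_apply]
  rw [Finset.sum_congr rfl fun δ _ => by rw [h1 δ], ← Finset.sum_filter, Finset.sum_const,
    nsmul_eq_mul, mul_comm, Nat.card_eq_fintype_card, Fintype.card_subtype]
  rfl

theorem lay_of (ι : G ≃* (H ≃ₐ[F] H)) (h : PermInd F₀ L ι) (N : Subgroup G)
    (hN : IsCyclic (G ⧸ N)) : SY.PermLay F (Kf ι N) := by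
  obtain ⟨ι', hι'⟩ := kf_quo ι N
  haveI hgal : IsGalois F (Kf ι N) := kf_galois ι N
  haveI hcyc : IsCyclic (Kf ι N ≃ₐ[F] Kf ι N) := ι'.isCyclic.1 hN
  haveI htow : IsScalarTower F (Kf ι N) L := by
    refine IsScalarTower.of_algebraMap_eq fun x => ?_
    rw [IsScalarTower.algebraMap_apply F H L]
    rfl
  haveI hfin : Finite (L ≃ₐ[F] L) := inferInstance
  obtain ⟨χ, hχ⟩ := fs_char (C := (Kf ι N ≃ₐ[F] Kf ι N))
  let χG : G →* ℂˣ := (χ.comp ι'.toMonoidHom).comp (QuotientGroup.mk' N)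
  obtain ⟨k, l, σ, τ, hσ⟩ := h χG
  let j : (L ≃ₐ[F] L) →* (L ≃ₐ[F₀] L) := fs_rsg F₀ F L
  let π : (L ≃ₐ[F] L) →* (Kf ι N ≃ₐ[F] Kf ι N) := AlgEquiv.restrictNormalHom (Kf ι N)
  let πH : (L ≃ₐ[F] L) →* (H ≃ₐ[F] H) := AlgEquiv.restrictNormalHom H
  have hj : Function.Injective j := by
    intro a b hab
    ext x
    exact congrArg (fun g : L ≃ₐ[F₀] L => g x) hab
  have hr : ∀ γ : L ≃ₐ[F₀] L, (∀ x : F, γ (algebraMap F L x) = algebraMap F L x) →
      ∃ b, j b = γ := fun γ' hγ' => ⟨{ γ' with commutes' := hγ' }, rfl⟩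
  have hr' : ∀ (b : L ≃ₐ[F] L) (x : F), j b (algebraMap F L x) = algebraMap F L x :=
    fun b x => b.commutes x
  refine ⟨F₀, L, inferInstance, inferInstance, inferInstance, inferInstance, inferInstance,
    inferInstance, inferInstance, inferInstance, inferInstance, htow, inferInstance, Fin k, Fin l,
    inferInstance, inferInstance, σ, τ, χ, hχ, fun γ => ?_⟩
  rw [← hσ γ, ind_eq, indK_eq (F := F) (K := H) j πH hj hr hr'
    (fun b x => (AlgEquiv.restrictNormal_commutes b H x).symm),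
    indK_eq (F := F) (K := Kf ι N) j π hj hr hr'
    (fun b x => (AlgEquiv.restrictNormal_commutes b (Kf ι N) x).symm)]
  congr 1
  refine MonoidHom.ext fun b => ?_
  show χ (ι' (QuotientGroup.mk' N (ι.symm (πH b)))) = χ (π b)
  congr 1
  ext x
  have h1 := hι'.2 (ι.symm (πH b)) x
  rw [MulEquiv.apply_symm_apply] at h1
  refine Eq.trans h1 ?_
  apply (algebraMap H L).injective
  have h2 : algebraMap H L (πH b (algebraMap (Kf ι N) H x)) =
      b (algebraMap H L (algebraMap (Kf ι N) H x)) := AlgEquiv.restrictNormal_commutes b H _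
  have h3 : algebraMap (Kf ι N) L (π b x) = b (algebraMap (Kf ι N) L x) :=
    AlgEquiv.restrictNormal_commutes b (Kf ι N) x
  exact h2.trans h3.symm

theorem kumN_old (h : KumN F₀ F H) : SY.KumN F H := by
  obtain ⟨n, ζ, B, hn, h1, h2, h3, h4, h5, h6⟩ := h
  exact ⟨F₀, inferInstance, inferInstance, inferInstance, inferInstance, inferInstance, n, ζ, B,
    hn, ⟨h1, h2, h3, h4, h5⟩, h6⟩

theorem holT_old (h : HolT F₀ F H) : SY.HolT F H := by
  obtain ⟨h1, m, θ, h2, h3, h4, h5, h6⟩ := h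
  exact ⟨F₀, inferInstance, inferInstance, inferInstance, inferInstance, inferInstance, h1, m, θ,
    h2, h3, h4, h5, h6⟩

theorem symT_old (h : SymP F₀ L) : SY.SymT F H := by
  obtain ⟨h1, k, n, h2⟩ := h
  exact ⟨F₀, L, inferInstance, inferInstance, inferInstance, inferInstance, inferInstance,
    inferInstance, inferInstance, inferInstance, inferInstance, inferInstance, inferInstance, k, n,
    h2⟩

theorem most {ι : G ≃* (H ≃ₐ[F] H)} {S : Finset (InfinitePlace F ⊕ HeightOneSpectrum (𝓞 F))}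
    {T₀ : Finset (HeightOneSpectrum (𝓞 F))} {r : ℕ}
    {w : Fin r → InfinitePlace H ⊕ HeightOneSpectrum (𝓞 H)} {fr : HeightOneSpectrum (𝓞 F) → G}
    (hD : Data ι S T₀ w fr)
    (h : PermInd F₀ L ι ∨ SymP F₀ L ∨ HolT F₀ F H ∨ KumN F₀ F H) :
    ∃ C : Set (HeightOneSpectrum (𝓞 F)), (∀ v ∈ C, Sum.inr v ∉ S) ∧
      ¬ Summable (fun v : C => (Ideal.absNorm v.1.asIdeal : ℝ)⁻¹) ∧
      ∀ (T : Finset (HeightOneSpectrum (𝓞 F))) (v : HeightOneSpectrum (𝓞 F)) (hv : v ∉ T),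
        Data ι S T w fr → v ∈ C → RubinOn ⊤ ι S (Finset.cons v T hv) w fr := by
  have hD' := data_of hD
  have key : RT.RubinMost ι S.toRight w fr := by
    rcases h with h | h | h | h
    · exact SY.most_lay hD' fun N hN _ => Or.inl (lay_of ι h N hN)
    · exact SY.most_fam hD' (Or.inl (symT_old h))
    · exact SY.most_fam hD' (Or.inr (Or.inl (holT_old h)))
    · exact SY.most_fam hD' (Or.inr (Or.inr (kumN_old h)))
  obtain ⟨C, h1, h2, h3⟩ := key
  refine ⟨C, fun v hv hS => h1 v hv (Finset.mem_toRight.2 hS), h2, fun T v hv hT hC => ?_⟩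
  exact rubin_of (h3 T v hv (data_of hT) hC)

end

end Pool.Agent.RB
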