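import Pool.Agent.Lib_helper15.RB.DefsK

/-!
# Rubin's integral refinement of the Stark conjectures (MP_dd9835_nt): induced characters
-/

namespace Pool.Agent.RB

section

variable {F₀ F H L : Type} [Field F₀] [Field F] [Field H] [Field L] [Algebra F₀ L] [Algebra F H]
  [Algebra F L] [Algebra H L] {G : Type} [CommGroup G] [Fintype G]

/-- For `F₀ ⊆ F ⊆ H ⊆ L` and a character `χ` of `G = Gal(H/F)`, inflated to `Gal(L/F)`: the induced
character of `Gal(L/F₀)`. Its value at `γ` is `[L : F]⁻¹ ∑ χ(g)`, where the sum is over the pairs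
`g ∈ G`, `δ ∈ Gal(L/F₀)` such that the restriction of `δ⁻¹ γ δ` to `H` is `g`. -/
noncomputable def ind (ι : MulEquiv G (AlgEquiv F H H)) (χ : G →* Units ℂ) (γ : AlgEquiv F₀ L L) :
    ℂ :=
  (Module.finrank F L : ℂ)⁻¹ * ∑ g : G, (χ g : ℂ) *
    Nat.card {δ : AlgEquiv F₀ L L //
      ∀ x : H, γ (δ (algebraMap H L x)) = δ (algebraMap H L (ι g x))}

variable (F₀ L) in
/-- Every character of `G = Gal(H/F)` induces on `Gal(L/F₀)` the difference of the permutation
characters of two finite `Gal(L/F₀)`-sets. -/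
def PermInd (ι : MulEquiv G (AlgEquiv F H H)) : Prop :=
  ∀ χ : G →* Units ℂ, ∃ (k l : ℕ) (σ : AlgEquiv F₀ L L →* Equiv.Perm (Fin k))
    (τ : AlgEquiv F₀ L L →* Equiv.Perm (Fin l)), ∀ γ : AlgEquiv F₀ L L,
      ind ι χ γ = (Nat.card {y // σ γ y = y} : ℂ) - Nat.card {y // τ γ y = y}

end

end Pool.Agent.RB
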